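import Pool.Agent.N89.HB.Stm

/-!
Project HB of helper89: finitely many rational functions over the algebraic closure are defined over a
number field (helper386).
-/

set_option autoImplicit false

namespace Pool.Agent.N386.HB.CO

open NumberField Pool.Agent.N89.HX Pool.Agent.N89.HG Pool.Agent.N89.HB

theorem lift_poly {σ R S : Type} [CommRing R] [CommRing S] (f : R →+* S) (s : S)
    (p : MvPolynomial σ S) (h : ∀ m ∈ p.support, ∃ r : R, f r = s * p.coeff m) :
    ∃ P : MvPolynomial σ R, MvPolynomial.map f P = MvPolynomial.C s * p := by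
  classical
  choose! r hr using h
  refine ⟨∑ m ∈ p.support, MvPolynomial.monomial m (r m), ?_⟩
  rw [map_sum]
  have h1 : MvPolynomial.C s * p = ∑ m ∈ p.support, MvPolynomial.C s *
      MvPolynomial.monomial m (p.coeff m) := by
    rw [← Finset.mul_sum, MvPolynomial.support_sum_monomial_coeff p]
  rw [h1]
  refine Finset.sum_congr rfl fun m hm => ?_
  rw [MvPolynomial.map_monomial, hr m hm, MvPolynomial.C_mul_monomial]

theorem main : S_CO := by
  intro L _ _ k m a
  classical
  have hdiv : ∀ i, ∃ p q : MvPolynomial (Fin k) (AlgebraicClosure L), q ≠ 0 ∧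
      algebraMap (MvPolynomial (Fin k) (AlgebraicClosure L)) (Fr k (AlgebraicClosure L)) p /
        algebraMap (MvPolynomial (Fin k) (AlgebraicClosure L)) (Fr k (AlgebraicClosure L)) q =
          a i := by
    intro i
    obtain ⟨p, q, hq, h⟩ :=
      IsFractionRing.div_surjective (A := MvPolynomial (Fin k) (AlgebraicClosure L)) (a i)
    exact ⟨p, q, nonZeroDivisors.ne_zero hq, h⟩
  choose p q hq hpq using hdiv
  obtain ⟨S, hS⟩ : ∃ S : Finset (AlgebraicClosure L), S = Finset.univ.biUnion (fun i =>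
      (p i).support.image (fun n => (p i).coeff n) ∪
        (q i).support.image (fun n => (q i).coeff n)) := ⟨_, rfl⟩
  have hSp : ∀ i, ∀ n ∈ (p i).support, (p i).coeff n ∈ S := by
    intro i n hn
    rw [hS, Finset.mem_biUnion]
    exact ⟨i, Finset.mem_univ i, Finset.mem_union_left _ (Finset.mem_image_of_mem _ hn)⟩
  have hSq : ∀ i, ∀ n ∈ (q i).support, (q i).coeff n ∈ S := by
    intro i n hn
    rw [hS, Finset.mem_biUnion]
    exact ⟨i, Finset.mem_univ i, Finset.mem_union_right _ (Finset.mem_image_of_mem _ hn)⟩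
  obtain ⟨L', hL'⟩ : ∃ L' : IntermediateField L (AlgebraicClosure L),
      L' = IntermediateField.adjoin L (S : Set (AlgebraicClosure L)) := ⟨_, rfl⟩
  have hSL : ∀ x ∈ S, x ∈ L' := by
    intro x hx
    rw [hL']
    exact IntermediateField.subset_adjoin L _ (by exact_mod_cast hx)
  have hfd : FiniteDimensional L L' := by
    rw [hL']
    exact IntermediateField.finiteDimensional_adjoin
      (fun x _ => Algebra.IsIntegral.isIntegral x)
  have hnf : NumberField L' := NumberField.of_module_finite L L'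
  obtain ⟨φ, hφ⟩ : ∃ φ : 𝓞 L' →+* AlgebraicClosure L,
      φ = (L'.val : L' →+* AlgebraicClosure L).comp (algebraMap (𝓞 L') L') := ⟨_, rfl⟩
  have hφi : Function.Injective φ := by
    rw [hφ]
    exact L'.val.injective.comp (IsFractionRing.injective (𝓞 L') L')
  have hgi : Function.Injective
      ((algebraMap (MvPolynomial (Fin k) (AlgebraicClosure L)) (Fr k (AlgebraicClosure L))).comp
        (MvPolynomial.map φ)) :=
    (IsFractionRing.injective (MvPolynomial (Fin k) (AlgebraicClosure L))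
      (Fr k (AlgebraicClosure L))).comp (MvPolynomial.map_injective φ hφi)
  obtain ⟨ι, hι⟩ : ∃ ι : Fr k (𝓞 L') →+* Fr k (AlgebraicClosure L),
      ∀ P : MvPolynomial (Fin k) (𝓞 L'), ι (algebraMap _ _ P) =
        algebraMap (MvPolynomial (Fin k) (AlgebraicClosure L)) (Fr k (AlgebraicClosure L))
          (MvPolynomial.map φ P) :=
    ⟨IsFractionRing.lift hgi, fun P => IsFractionRing.lift_algebraMap hgi P⟩
  obtain ⟨T, hT⟩ : ∃ T : Finset L', ∀ (x : AlgebraicClosure L) (hx : x ∈ S),
      (⟨x, hSL x hx⟩ : L') ∈ T := by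
    refine ⟨S.attach.image (fun x : {x // x ∈ S} => (⟨x.1, hSL x.1 x.2⟩ : L')), ?_⟩
    intro x hx
    exact Finset.mem_image.2 ⟨⟨x, hx⟩, Finset.mem_attach _ _, rfl⟩
  obtain ⟨b, hb⟩ := IsLocalization.exist_integer_multiples_of_finset (nonZeroDivisors (𝓞 L')) T
  have hint : ∀ x ∈ S, ∃ r : 𝓞 L', φ r = φ (b : 𝓞 L') * x := by
    intro x hx
    obtain ⟨r, hr⟩ := hb ⟨x, hSL x hx⟩ (hT x hx)
    refine ⟨r, ?_⟩
    rw [hφ, RingHom.comp_apply, hr, RingHom.comp_apply, Algebra.smul_def, map_mul]
    rfl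
  have hb0 : φ (b : 𝓞 L') ≠ 0 := by
    intro h
    exact nonZeroDivisors.ne_zero b.2 (hφi (h.trans (map_zero φ).symm))
  refine ⟨L', inferInstance, hnf, inferInstance, L'.val, ι, ?_, ?_⟩
  · intro P
    rw [hι, hφ]
  · intro i
    obtain ⟨P, hP⟩ := lift_poly φ (φ (b : 𝓞 L')) (p i) (fun n hn => hint _ (hSp i n hn))
    obtain ⟨Q, hQ⟩ := lift_poly φ (φ (b : 𝓞 L')) (q i) (fun n hn => hint _ (hSq i n hn))
    refine ⟨algebraMap _ _ P / algebraMap _ _ Q, ?_⟩
    rw [map_div₀, hι, hι, hP, hQ, map_mul, map_mul, ← hpq i]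
    refine mul_div_mul_left _ _ ?_
    intro h
    rw [map_eq_zero_iff _ (IsFractionRing.injective (MvPolynomial (Fin k) (AlgebraicClosure L))
      (Fr k (AlgebraicClosure L))), MvPolynomial.C_eq_zero] at h
    exact hb0 h

end Pool.Agent.N386.HB.CO
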